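import Pool.Agent.H.MP_9b8acd_an.Main

namespace Pool.Agent.Results.MP_9b8acd_an.NoOrdering

open Filter Topology

theorem result : ∃ (X : Type) (_ : NormedAddCommGroup X) (_ : NormedSpace ℝ X) (_ : CompleteSpace X)
    (e : ℕ → X) (e' : ℕ → X →L[ℝ] ℝ), (∀ i, ‖e i‖ = 1 ∧ ‖e' i‖ = 1) ∧
    (∀ i j : ℕ, e' i (e j) = if i = j then (1 : ℝ) else 0) ∧
    Dense ((Submodule.span ℝ (Set.range e) : Submodule ℝ X) : Set X) ∧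
    (∀ x : X, (∀ i : ℕ, e' i x = 0) → x = 0) ∧
    (∀ (x : X) (A B : Finset ℕ), (∀ i ∈ A, ∀ j : ℕ, j ∉ A → ‖e' j x‖ ≤ ‖e' i x‖) →
      B.card ≤ A.card → ‖x - ∑ i ∈ A, e' i x • e i‖ ≤ 6 * ‖x - ∑ i ∈ B, e' i x • e i‖) ∧
    ∀ π : Equiv.Perm ℕ, ¬ ∀ x : X,
      Tendsto (fun n : ℕ => ∑ k ∈ Finset.range n, e' (π k) x • e (π k)) atTop (𝓝 x) :=
  ⟨_, inferInstance, inferInstance, inferInstance, Pool.Agent.H.MP_9b8acd_an.main⟩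

end Pool.Agent.Results.MP_9b8acd_an.NoOrdering
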